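import Pool.Agent.Helper69.DC.Goals

/-!
# Project DC (MP_628424_an): packet AJO
-/

set_option autoImplicit false

namespace Pool.Agent.Helper53.DC

open MvPolynomial Finset ComplexConjugate Pool.Agent.Helper69.DC

variable {m N : ℕ}

theorem sum_zero {d : ℕ} (c : ℕ → ℂ) (h : ∀ t : ℂ, ∑ j ∈ range (d + 1), t ^ j * c j = 0) :
    ∀ j ≤ d, c j = 0 := by
  intro j hj
  have hp : (∑ j ∈ range (d + 1), Polynomial.C (c j) * Polynomial.X ^ j : Polynomial ℂ) = 0 := by
    apply Polynomial.funext
    intro t
    rw [Polynomial.eval_finsetSum, Polynomial.eval_zero, ← h t]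
    apply Finset.sum_congr rfl
    intro i _
    rw [Polynomial.eval_mul, Polynomial.eval_C, Polynomial.eval_pow, Polynomial.eval_X, mul_comm]
  have h2 := congrArg (fun q : Polynomial ℂ => q.coeff j) hp
  simp only [Polynomial.finsetSum_coeff, Polynomial.coeff_zero] at h2
  rw [Finset.sum_eq_single j] at h2
  · simpa using h2
  · intro b _ hb
    rw [Polynomial.coeff_C_mul_X_pow, if_neg (Ne.symm hb)]
  · intro h3
    exact absurd (Finset.mem_range.2 (by omega)) h3

theorem hf_sum_left {ι : Type} (s : Finset ι) (c : ι → ℂ) (A : ι → Fin (N + 1) → ℂ)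
    (y : Fin (N + 1) → ℂ) : hf (∑ j ∈ s, c j • A j) y = ∑ j ∈ s, c j * hf (A j) y := by
  classical
  induction s using Finset.induction_on with
  | empty => simp [hf]
  | insert a s ha ih =>
    rw [Finset.sum_insert ha, Finset.sum_insert ha, ← ih]
    unfold hf
    simp only [Pi.add_apply, Pi.smul_apply, smul_eq_mul]
    rw [mul_sub, Finset.mul_sum]
    have : ∑ j : Fin N, (c a * A a j.succ + (∑ i ∈ s, c i • A i) j.succ) * conj (y j.succ) =
        (∑ j : Fin N, c a * (A a j.succ * conj (y j.succ))) +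
        ∑ j : Fin N, (∑ i ∈ s, c i • A i) j.succ * conj (y j.succ) := by
      rw [← Finset.sum_add_distrib]
      apply Finset.sum_congr rfl
      intro j _
      ring
    rw [this]
    ring

theorem hf_conj (x y : Fin (N + 1) → ℂ) : hf x y = conj (hf y x) := by
  unfold hf
  simp only [map_sub, map_mul, map_sum, Complex.conj_conj]
  congr 1
  · ring
  · apply Finset.sum_congr rfl
    intro j _
    ring

theorem hf_sum_right {ι : Type} (s : Finset ι) (c : ι → ℂ) (A : ι → Fin (N + 1) → ℂ)
    (x : Fin (N + 1) → ℂ) :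
    hf x (∑ j ∈ s, c j • A j) = ∑ j ∈ s, conj (c j) * hf x (A j) := by
  rw [hf_conj, hf_sum_left, map_sum]
  apply Finset.sum_congr rfl
  intro j _
  rw [map_mul, ← hf_conj]

theorem la_natDegree {d : ℕ} (f : Fin (N + 1) → MvPolynomial (Fin m ⊕ Unit) ℂ)
    (hd : ∀ k, (f k).totalDegree ≤ d) (β : Fin m → ℂ) (a : ℂ) (v : Fin m → ℂ) (c : ℂ)
    (k : Fin (N + 1)) : (la f β a v c k).natDegree ≤ d := by
  have h := MvPolynomial.aeval_natDegree_le (R := ℂ) (m := d) (n := 1) (f k) (hd k)
    (Sum.elim (fun i => Polynomial.C (β i) + Polynomial.C (v i) * Polynomial.X)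
      (fun _ => Polynomial.C a + Polynomial.C c * Polynomial.X)) (by
      intro i
      rcases i with i | i
      · change (Polynomial.C (β i) + Polynomial.C (v i) * Polynomial.X : Polynomial ℂ).natDegree ≤ 1
        rw [add_comm]; exact Polynomial.natDegree_linear_le
      · change (Polynomial.C a + Polynomial.C c * Polynomial.X : Polynomial ℂ).natDegree ≤ 1
        rw [add_comm]; exact Polynomial.natDegree_linear_le)
  rw [mul_one] at h
  exact h

theorem la_eval (f : Fin (N + 1) → MvPolynomial (Fin m ⊕ Unit) ℂ)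
    (β : Fin m → ℂ) (a : ℂ) (v : Fin m → ℂ) (c : ℂ) (k : Fin (N + 1)) (t : ℂ) :
    (la f β a v c k).eval t = fv f (fun i => β i + t * v i) (a + t * c) k := by
  unfold la fv
  rw [← Polynomial.coe_evalRingHom, MvPolynomial.aeval_def, MvPolynomial.hom_eval₂]
  have e1 : (Polynomial.evalRingHom t).comp (algebraMap ℂ (Polynomial ℂ)) = RingHom.id ℂ := by
    ext x
    simp
  have e2 : (fun i => (Polynomial.evalRingHom t)
      (Sum.elim (fun i => Polynomial.C (β i) + Polynomial.C (v i) * Polynomial.X)
        (fun _ => Polynomial.C a + Polynomial.C c * Polynomial.X) i)) =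
      Sum.elim (fun i => β i + t * v i) (fun _ : Unit => a + t * c) := by
    funext i
    rcases i with i | i
    · rw [Polynomial.coe_evalRingHom, Sum.elim_inl, Sum.elim_inl, Polynomial.eval_add,
        Polynomial.eval_mul, Polynomial.eval_C, Polynomial.eval_C, Polynomial.eval_X]
      ring
    · rw [Polynomial.coe_evalRingHom, Sum.elim_inr, Sum.elim_inr, Polynomial.eval_add,
        Polynomial.eval_mul, Polynomial.eval_C, Polynomial.eval_C, Polynomial.eval_X]
      ring
  rw [e1, e2]
  rfl

theorem AJ_high {d : ℕ} (f : Fin (N + 1) → MvPolynomial (Fin m ⊕ Unit) ℂ)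
    (hd : ∀ k, (f k).totalDegree ≤ d) (β : Fin m → ℂ) (a : ℂ) (v : Fin m → ℂ) (j : ℕ)
    (hj : d < j) : AJ f β a v j = 0 := by
  funext k
  exact Polynomial.coeff_eq_zero_of_natDegree_lt ((la_natDegree f hd β a v _ k).trans_lt hj)

theorem AJ_sum {d : ℕ} (f : Fin (N + 1) → MvPolynomial (Fin m ⊕ Unit) ℂ)
    (hd : ∀ k, (f k).totalDegree ≤ d) (β : Fin m → ℂ) (a : ℂ) (v : Fin m → ℂ) (t : ℂ) :
    ∑ j ∈ range (d + 1), t ^ j • AJ f β a v j =
      fv f (fun i => β i + t * v i) (a + t * ∑ i, v i * conj (β i)) := by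
  funext k
  rw [← la_eval, Polynomial.eval_eq_sum_range' (Nat.lt_succ_of_le (la_natDegree f hd β a v _ k)),
    Finset.sum_apply]
  apply Finset.sum_congr rfl
  intro j _
  change t ^ j * (la f β a v (∑ i, v i * conj (β i)) k).coeff j = _
  ring

theorem AJ_zero (f : Fin (N + 1) → MvPolynomial (Fin m ⊕ Unit) ℂ) (β : Fin m → ℂ) (a : ℂ)
    (v : Fin m → ℂ) : AJ f β a v 0 = fv f β a := by
  funext k
  change (la f β a v (∑ i, v i * conj (β i)) k).coeff 0 = _
  rw [Polynomial.coeff_zero_eq_eval_zero, la_eval]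
  simp

theorem g_ajo : Pool.Agent.Helper69.DC.G_AJO := by
  intro m N d f hf' β a hn
  have hd := hf'.deg
  have key : ∀ (u v : Fin m → ℂ), ∑ i, u i * conj (v i) = 0 → ∀ t s : ℂ,
      hf (fv f (fun i => β i + t * u i) (a + t * ∑ i, u i * conj (β i)))
        (fv f (fun i => β i + s * v i) (a + s * ∑ i, v i * conj (β i))) = 0 := by
    intro u v huv t s
    apply hf'.orth
    have hn' : a + conj a = ∑ i, β i * conj (β i) := hn
    have e1 : ∑ i, (β i + t * u i) * conj (β i + s * v i) =
        ∑ i, β i * conj (β i) + t * ∑ i, u i * conj (β i) +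
          conj s * ∑ i, conj (v i) * β i + t * conj s * ∑ i, u i * conj (v i) := by
      rw [Finset.mul_sum, Finset.mul_sum, Finset.mul_sum, ← Finset.sum_add_distrib,
        ← Finset.sum_add_distrib, ← Finset.sum_add_distrib]
      apply Finset.sum_congr rfl
      intro i _
      simp only [map_add, map_mul]
      ring
    rw [e1, huv, ← hn']
    simp only [map_add, map_mul, map_sum, Complex.conj_conj]
    ring
  have A1 : ∀ (u v : Fin m → ℂ), ∑ i, u i * conj (v i) = 0 → ∀ i j : ℕ,
      hf (AJ f β a u i) (AJ f β a v j) = 0 := by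
    intro u v huv i j
    by_cases hi : d < i
    · rw [AJ_high f hd β a u i hi]; simp [hf]
    by_cases hj : d < j
    · rw [AJ_high f hd β a v j hj]; simp [hf]
    have h1 : ∀ s : ℂ, ∑ l ∈ range (d + 1), conj s ^ l *
        hf (AJ f β a u i) (AJ f β a v l) = 0 := by
      intro s
      have h2 := sum_zero (d := d)
        (fun i => hf (AJ f β a u i) (fv f (fun i => β i + s * v i)
          (a + s * ∑ i, v i * conj (β i)))) (by
        intro t
        rw [← hf_sum_left, AJ_sum f hd]
        exact key u v huv t s) i (by omega)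
      have h3 : hf (AJ f β a u i) (fv f (fun i => β i + s * v i)
          (a + s * ∑ i, v i * conj (β i))) = 0 := h2
      rw [← AJ_sum f hd, hf_sum_right] at h3
      rw [← h3]
      apply Finset.sum_congr rfl
      intro l _
      rw [map_pow]
    apply sum_zero (d := d) (fun l => hf (AJ f β a u i) (AJ f β a v l)) _ j (by omega)
    intro t
    have := h1 (conj t)
    rw [Complex.conj_conj] at this
    exact this
  refine ⟨A1, ?_, AJ_zero f β a, AJ_high f hd β a, AJ_sum f hd β a⟩
  intro v j
  have h := A1 v 0 (by simp) j 0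
  rw [AJ_zero] at h
  exact h

end Pool.Agent.Helper53.DC
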