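import Pool.Agent.Helper86.DC.RK
import Pool.Agent.Helper66.DC.Goals4

/-!
# Project DC4 (MP_628424_an): kernel vectors relative to a specialisation (packet Q_RK2)
-/

set_option autoImplicit false

namespace Pool.Agent.Helper53.DC

open MvPolynomial
open Pool.Agent.Helper86.DC (exists_left sum_supp)

theorem h_rk2 : Pool.Agent.Helper66.DC.Q_RK2 := by
  classical
  intro σ ρ κ _ _ M
  let A := MvPolynomial σ ℂ
  obtain ⟨s, hs, hs'⟩ := exists_maximal_linearIndepOn A (fun (c : κ) (r : ρ) => M r c)
  have : Fintype s := Fintype.ofFinite s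
  obtain ⟨W₁, hW₁, L, hL⟩ := exists_left (fun (c : κ) (r : ρ) => M r c) s hs
  have hsp : ∀ c : κ, ∃ (a : A) (b : s → A), a ≠ 0 ∧
      (∀ r, a * M r c = ∑ j : s, b j * M r j) := by
    intro c
    by_cases hc : c ∈ s
    · refine ⟨1, Pi.single ⟨c, hc⟩ 1, one_ne_zero, fun r => ?_⟩
      rw [Finset.sum_eq_single ⟨c, hc⟩]
      · simp
      · intro j _ hj
        simp [Pi.single_apply, hj]
      · intro h
        exact absurd (Finset.mem_univ _) h
    · obtain ⟨a, ha, hm⟩ := hs' c hc
      rw [Set.image_eq_range] at hm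
      obtain ⟨b, hb⟩ := (Submodule.mem_span_range_iff_exists_fun A).1 hm
      refine ⟨a, b, ha, fun r => ?_⟩
      have h := congrFun hb r
      rw [Finset.sum_apply] at h
      simpa using h.symm
  choose a b ha hab using hsp
  refine ⟨W₁ * ∏ c, a c, mul_ne_zero hW₁ (Finset.prod_ne_zero_iff.2 fun c _ => ha c), ?_⟩
  intro τ φ ψ hψ hx u hu
  have hx' := hx
  rw [map_mul] at hx'
  have hx1 : φ W₁ ≠ 0 := left_ne_zero_of_mul hx'
  -- the cofactors
  let w : κ → A := fun c => W₁ * ∏ c' ∈ Finset.univ.erase c, a c'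
  have hw : ∀ c, w c * a c = W₁ * ∏ c', a c' := by
    intro c
    simp only [w]
    rw [mul_assoc, Finset.prod_erase_mul _ _ (Finset.mem_univ c)]
  -- the kernel vectors
  let e : κ → κ → A := fun c c' => (if c' = c then a c else 0) -
    (if h : c' ∈ s then b c ⟨c', h⟩ else 0)
  have he : ∀ c r, ∑ c', M r c' * e c c' = 0 := by
    intro c r
    have h1 : ∑ c', M r c' * (if c' = c then a c else 0) = a c * M r c := by
      rw [Finset.sum_eq_single c]
      · rw [if_pos rfl, mul_comm]
      · intro c' _ h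
        rw [if_neg h, mul_zero]
      · intro h
        exact absurd (Finset.mem_univ _) h
    have h2 : ∑ c', M r c' * (if h : c' ∈ s then b c ⟨c', h⟩ else 0) =
        ∑ j : s, b c j * M r j := by
      rw [sum_supp s]
      · refine Finset.sum_congr rfl fun j _ => ?_
        rw [dif_pos j.2, mul_comm]
      · intro c' h
        rw [dif_neg h, mul_zero]
    simp only [e, mul_sub]
    rw [Finset.sum_sub_distrib, h1, h2, hab, sub_self]
  let K : κ → A := fun c' => ∑ c : (sᶜ : Set κ), ψ (u c) * w c * e c c'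
  have hK : ∀ r, ∑ c', M r c' * K c' = 0 := by
    intro r
    simp only [K, Finset.mul_sum]
    rw [Finset.sum_comm]
    refine Finset.sum_eq_zero fun c _ => ?_
    have h1 : ∀ c', M r c' * (ψ (u c) * w c * e c c') =
        ψ (u c) * w c * (M r c' * e c c') := fun c' => by ring
    rw [Finset.sum_congr rfl fun c' _ => h1 c', ← Finset.mul_sum, he, mul_zero]
  refine ⟨K, hK, ?_⟩
  -- outside `s`
  have hout : ∀ c, c ∉ s → φ (K c) = φ (W₁ * ∏ c', a c') * u c := by
    intro c hc
    have h0 : K c = ψ (u c) * (W₁ * ∏ c', a c') := by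
      simp only [K]
      rw [Finset.sum_eq_single ⟨c, hc⟩]
      · simp only [e, dif_neg hc, if_true, sub_zero]
        rw [mul_assoc, hw]
      · intro c' _ h
        have h1 : c ≠ c' := fun h2 => h (Subtype.ext h2.symm)
        simp only [e, dif_neg hc, if_neg h1, sub_zero, mul_zero]
      · intro h
        exact absurd (Finset.mem_univ _) h
    rw [h0, map_mul, hψ, mul_comm]
  -- the difference
  let d : κ → MvPolynomial τ ℂ := fun c => φ (K c) - φ (W₁ * ∏ c', a c') * u c
  have hd0 : ∀ c, c ∉ s → d c = 0 := fun c hc => by simp only [d, hout c hc, sub_self]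
  have hd : ∀ r, ∑ c, φ (M r c) * d c = 0 := by
    intro r
    simp only [d, mul_sub]
    rw [Finset.sum_sub_distrib]
    have h1 := congrArg φ (hK r)
    rw [map_sum, map_zero] at h1
    simp only [map_mul φ (M r _)] at h1
    rw [h1, zero_sub, neg_eq_zero]
    have h2 : ∀ c, φ (M r c) * (φ (W₁ * ∏ c', a c') * u c) =
        φ (W₁ * ∏ c', a c') * (φ (M r c) * u c) := fun c => by ring
    rw [Finset.sum_congr rfl fun c _ => h2 c, ← Finset.mul_sum, hu r, mul_zero]
  have hds : ∀ r, ∑ j : s, φ (M r j) * d j = 0 := by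
    intro r
    rw [← hd r]
    exact (sum_supp s (fun c => φ (M r c) * d c) fun c hc => by
      beta_reduce
      rw [hd0 c hc, mul_zero]).symm
  intro c
  by_cases hc : c ∈ s
  · have h1 : ∑ r, φ (L ⟨c, hc⟩ r) * ∑ j : s, φ (M r j) * d j = 0 :=
      Finset.sum_eq_zero fun r _ => by rw [hds r, mul_zero]
    simp only [Finset.mul_sum] at h1
    rw [Finset.sum_comm] at h1
    have h2 : ∀ j : s, ∑ r, φ (L ⟨c, hc⟩ r) * (φ (M r j) * d j) =
        (if (⟨c, hc⟩ : s) = j then φ W₁ * d j else 0) := by
      intro j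
      have h3 := congrArg φ (hL ⟨c, hc⟩ j)
      rw [map_sum] at h3
      simp only [map_mul] at h3
      simp only [← mul_assoc]
      rw [← Finset.sum_mul, h3]
      split_ifs with h
      · rfl
      · rw [map_zero, zero_mul]
    rw [Finset.sum_congr rfl fun j _ => h2 j, Finset.sum_ite_eq, if_pos (Finset.mem_univ _)] at h1
    have h4 : d c = 0 := (mul_eq_zero.1 h1).resolve_left hx1
    exact sub_eq_zero.1 h4
  · exact hout c hc

end Pool.Agent.Helper53.DC
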